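import Mathlib
import Pool.Agent.TH407.MZ.CylDefs
set_option autoImplicit false

/-! Archimedes: the surface measure of the sphere is `dh dθ`. -/

namespace Pool.Agent.TH698.MZ

open MeasureTheory Set Complex Metric
open scoped ENNReal NNReal Real Pointwise
open Pool.Agent.TH407 Pool.Agent.TH407.MZ
open Pool.Agent.TH277.CS (E3 sigma HP HP_meas D0 D0_meas u u_meas u_0 u_1 u_2 W W_nonneg
  W_meas lint_sphere s2 s2_meas)
open Pool.Agent.TH407.MV (nrm e3p rs rs_mp rs_coe rs_meas)

lemma nrm_measurable (p : sphere (0 : E3) 1) : Measurable (nrm p) := by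
  have hemb : MeasurableEmbedding (Subtype.val : sphere (0 : E3) 1 → E3) :=
    MeasurableEmbedding.subtype_coe isClosed_sphere.measurableSet
  rw [← hemb.measurable_comp_iff]
  have h : (Subtype.val ∘ nrm p) = fun y : E3 => if y = 0 then (p : E3) else ‖y‖⁻¹ • y := by
    funext y
    show (nrm p y : E3) = _
    unfold nrm
    by_cases h : y = 0
    · rw [dif_pos h, if_pos h]
    · rw [dif_neg h, if_neg h]
  rw [h]
  apply Measurable.ite (measurableSet_singleton (0 : E3)) measurable_const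
  fun_prop

lemma Pz_meas : Measurable (fun p : ℝ × ℝ => Pz p.1 p.2) := by
  unfold Pz
  apply (nrm_measurable e3p).comp
  apply (PiLp.volume_preserving_toLp (Fin 3)).measurable.comp
  rw [measurable_pi_iff]
  intro j
  fin_cases j
  · show Measurable fun p : ℝ × ℝ => √(1 - p.1 ^ 2) * Real.cos p.2
    fun_prop
  · show Measurable fun p : ℝ × ℝ => √(1 - p.1 ^ 2) * Real.sin p.2
    fun_prop
  · exact measurable_fst

lemma pt_eq {h : ℝ} (hh : h ∈ Ioo (0 : ℝ) 1) (θ : ℝ) :
    u (√(1 - h ^ 2) * Real.cos θ, √(1 - h ^ 2) * Real.sin θ) = Pz h θ := by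
  have h2 : h ^ 2 ≤ 1 := by nlinarith [hh.1, hh.2]
  have h1 : √(1 - h ^ 2) ^ 2 = 1 - h ^ 2 := Real.sq_sqrt (by linarith)
  have hs : s2 (√(1 - h ^ 2) * Real.cos θ, √(1 - h ^ 2) * Real.sin θ) = 1 - h ^ 2 := by
    show (√(1 - h ^ 2) * Real.cos θ) ^ 2 + (√(1 - h ^ 2) * Real.sin θ) ^ 2 = 1 - h ^ 2
    rw [mul_pow, mul_pow, h1]
    nlinarith [Real.sin_sq_add_cos_sq θ]
  have hs1 : s2 (√(1 - h ^ 2) * Real.cos θ, √(1 - h ^ 2) * Real.sin θ) < 1 := by
    rw [hs]
    nlinarith [hh.1]
  apply Subtype.ext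
  ext j
  fin_cases j
  · exact (u_0 hs1).trans (Pz_0 h2 θ).symm
  · exact (u_1 hs1).trans (Pz_1 h2 θ).symm
  · refine (u_2 hs1).trans ?_
    rw [hs]
    refine Eq.trans ?_ (Pz_2 h2 θ).symm
    rw [sub_sub_cancel, Real.sqrt_sq hh.1.le]

/-- the integral over the circle of latitude `h` -/
noncomputable def J (F : sphere (0 : E3) 1 → ℝ≥0∞) (h : ℝ) : ℝ≥0∞ :=
  ∫⁻ θ in Ioo (-π) π, F (Pz h θ)

lemma J_meas {F : sphere (0 : E3) 1 → ℝ≥0∞} (hF : Measurable F) : Measurable (J F) := by
  unfold J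
  exact Measurable.lintegral_prod_right' (f := fun p : ℝ × ℝ => F (Pz p.1 p.2)) (hF.comp Pz_meas)

/-- the upper half sphere -/
lemma upper {F : sphere (0 : E3) 1 → ℝ≥0∞} (hF : Measurable F) :
    ∫⁻ x in HP, F x ∂sigma = ∫⁻ h in Ioo (0 : ℝ) 1, J F h := by
  rw [lint_sphere F hF]
  set f : ℝ × ℝ → ℝ≥0∞ := fun y => ENNReal.ofReal (W (s2 y)) * F (u y) with hf
  have hfm : Measurable f := by
    apply Measurable.mul
    · exact (W_meas.comp s2_meas).ennreal_ofReal
    · exact hF.comp u_meas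
  rw [← lintegral_indicator D0_meas, ← lintegral_comp_polarCoord_symm]
  have htar : polarCoord.target = Ioi (0 : ℝ) ×ˢ Ioo (-π) π := rfl
  rw [htar, Measure.volume_eq_prod, ← Measure.prod_restrict, lintegral_prod]
  rotate_left
  · apply Measurable.aemeasurable
    refine Measurable.mul measurable_fst.ennreal_ofReal ?_
    exact (hfm.indicator D0_meas).comp continuous_polarCoord_symm.measurable
  -- the function of the radius
  set g : ℝ → ℝ≥0∞ := fun r => ENNReal.ofReal (r * W (r ^ 2)) *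
    ∫⁻ θ in Ioo (-π) π, F (u (r * Real.cos θ, r * Real.sin θ)) with hg
  have h1 : ∫⁻ r in Ioi (0 : ℝ), ∫⁻ θ in Ioo (-π) π,
      ENNReal.ofReal (r, θ).1 • (D0.indicator f) (polarCoord.symm (r, θ)) =
      ∫⁻ r in Ioo (0 : ℝ) 1, g r := by
    have h2 : ∀ r ∈ Ioi (0 : ℝ), ∫⁻ θ in Ioo (-π) π,
        ENNReal.ofReal (r, θ).1 • (D0.indicator f) (polarCoord.symm (r, θ)) =
        (Iio (1 : ℝ)).indicator g r := by
      intro r hr
      have hr0 : 0 < r := hr
      have hs : ∀ θ, s2 (polarCoord.symm (r, θ)) = r ^ 2 := by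
        intro θ
        simp only [polarCoord_symm_apply]
        show (r * Real.cos θ) ^ 2 + (r * Real.sin θ) ^ 2 = r ^ 2
        rw [mul_pow, mul_pow]
        nlinarith [Real.sin_sq_add_cos_sq θ]
      have hs' : ∀ θ, s2 (r * Real.cos θ, r * Real.sin θ) = r ^ 2 := hs
      by_cases hr1 : r < 1
      · rw [indicator_of_mem (show r ∈ Iio (1 : ℝ) from hr1), hg]
        simp only
        rw [← lintegral_const_mul]
        · apply lintegral_congr
          intro θ
          have : polarCoord.symm (r, θ) ∈ D0 := by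
            show s2 _ < 1
            rw [hs]
            nlinarith
          rw [indicator_of_mem this, hf]
          simp only [smul_eq_mul, polarCoord_symm_apply]
          rw [hs']
          rw [← mul_assoc, ← ENNReal.ofReal_mul hr0.le]
        · exact (hF.comp u_meas).comp (by fun_prop)
      · rw [indicator_of_notMem (show r ∉ Iio (1 : ℝ) from hr1)]
        rw [← lintegral_zero (μ := (volume : Measure ℝ).restrict (Ioo (-π) π))]
        apply lintegral_congr
        intro θ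
        have : polarCoord.symm (r, θ) ∉ D0 := by
          show ¬ s2 _ < 1
          rw [hs]
          push Not at hr1 ⊢
          nlinarith
        rw [indicator_of_notMem this, smul_zero]
    rw [setLIntegral_congr_fun measurableSet_Ioi h2, ← lintegral_indicator measurableSet_Ioi,
      ← lintegral_indicator measurableSet_Ioo]
    apply lintegral_congr
    intro r
    by_cases h3 : 0 < r
    · by_cases h4 : r < 1
      · rw [indicator_of_mem (show r ∈ Ioi (0 : ℝ) from h3),
          indicator_of_mem (show r ∈ Iio (1 : ℝ) from h4),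
          indicator_of_mem (show r ∈ Ioo (0 : ℝ) 1 from ⟨h3, h4⟩)]
      · rw [indicator_of_mem (show r ∈ Ioi (0 : ℝ) from h3),
          indicator_of_notMem (show r ∉ Iio (1 : ℝ) from h4),
          indicator_of_notMem (show r ∉ Ioo (0 : ℝ) 1 from fun h => h4 h.2)]
    · rw [indicator_of_notMem (show r ∉ Ioi (0 : ℝ) from h3),
        indicator_of_notMem (show r ∉ Ioo (0 : ℝ) 1 from fun h => h3 h.1)]
  rw [h1]
  -- substitution
  have himg : (fun h : ℝ => √(1 - h ^ 2)) '' Ioo (0 : ℝ) 1 = Ioo (0 : ℝ) 1 := by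
    ext r
    constructor
    · rintro ⟨h, hh, rfl⟩
      have h5 : 0 < 1 - h ^ 2 := by nlinarith [hh.1, hh.2]
      refine ⟨Real.sqrt_pos.2 h5, ?_⟩
      show √(1 - h ^ 2) < 1
      rw [Real.sqrt_lt' one_pos]
      nlinarith [hh.1]
    · intro hr
      refine ⟨√(1 - r ^ 2), ⟨Real.sqrt_pos.2 (by nlinarith [hr.1, hr.2]), ?_⟩, ?_⟩
      · rw [Real.sqrt_lt' one_pos]
        nlinarith [hr.1]
      · show √(1 - √(1 - r ^ 2) ^ 2) = r
        rw [Real.sq_sqrt (by nlinarith [hr.1, hr.2]), sub_sub_cancel, Real.sqrt_sq hr.1.le]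
  have hder : ∀ h ∈ Ioo (0 : ℝ) 1, HasDerivWithinAt (fun h : ℝ => √(1 - h ^ 2))
      (-h / √(1 - h ^ 2)) (Ioo (0 : ℝ) 1) h := by
    intro h hh
    have h5 : 0 < 1 - h ^ 2 := by nlinarith [hh.1, hh.2]
    have h6 : HasDerivAt (fun h : ℝ => 1 - h ^ 2) (-(2 * h)) h := by
      have := (hasDerivAt_pow 2 h).const_sub 1
      simpa using this
    have h7 := h6.sqrt h5.ne'
    have e : -(2 * h) / (2 * √(1 - h ^ 2)) = -h / √(1 - h ^ 2) := by
      have : √(1 - h ^ 2) ≠ 0 := (Real.sqrt_pos.2 h5).ne'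
      field_simp
    rw [e] at h7
    exact h7.hasDerivWithinAt
  have hinj : InjOn (fun h : ℝ => √(1 - h ^ 2)) (Ioo (0 : ℝ) 1) := by
    intro a ha b hb hab
    have h5 : 0 ≤ 1 - a ^ 2 := by nlinarith [ha.1, ha.2]
    have h6 : 0 ≤ 1 - b ^ 2 := by nlinarith [hb.1, hb.2]
    have h7 : 1 - a ^ 2 = 1 - b ^ 2 := (Real.sqrt_inj h5 h6).1 hab
    have h8 : a ^ 2 = b ^ 2 := by linarith
    exact (pow_left_inj₀ ha.1.le hb.1.le two_ne_zero).1 h8
  have hsub := lintegral_image_eq_lintegral_abs_deriv_mul measurableSet_Ioo hder hinj g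
  rw [himg] at hsub
  rw [hsub]
  apply setLIntegral_congr_fun measurableSet_Ioo
  intro h hh
  have h5 : 0 < 1 - h ^ 2 := by nlinarith [hh.1, hh.2]
  have h6 : 0 < √(1 - h ^ 2) := Real.sqrt_pos.2 h5
  simp only [hg]
  rw [← mul_assoc, ← ENNReal.ofReal_mul (abs_nonneg _)]
  have e1 : |(-h / √(1 - h ^ 2))| * (√(1 - h ^ 2) * W (√(1 - h ^ 2) ^ 2)) = 1 := by
    unfold W
    rw [Real.sq_sqrt h5.le, sub_sub_cancel, Real.sqrt_sq hh.1.le, abs_div, abs_neg,
      abs_of_pos hh.1, abs_of_pos h6]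
    have : h ≠ 0 := hh.1.ne'
    field_simp
  rw [e1, ENNReal.ofReal_one, one_mul]
  unfold J
  apply lintegral_congr
  intro θ
  rw [pt_eq hh]

/-- the reflection in the plane of the equator -/
noncomputable def R : E3 ≃ₗᵢ[ℝ] E3 :=
  LinearIsometryEquiv.piLpCongrRight 2
    (fun i : Fin 3 => if i = 2 then LinearIsometryEquiv.neg ℝ else LinearIsometryEquiv.refl ℝ ℝ)

lemma R_apply (x : E3) (i : Fin 3) : R x i = if i = 2 then - x i else x i := by
  show (if i = 2 then LinearIsometryEquiv.neg ℝ else LinearIsometryEquiv.refl ℝ ℝ) (x i) = _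
  by_cases h : i = 2
  · rw [if_pos h, if_pos h]; rfl
  · rw [if_neg h, if_neg h]; rfl

lemma rsR_rsR (x : sphere (0 : E3) 1) : rs R (rs R x) = x := by
  apply Subtype.ext
  rw [rs_coe, rs_coe]
  ext i
  rw [R_apply, R_apply]
  by_cases h : i = 2
  · rw [if_pos h, if_pos h, neg_neg]
  · rw [if_neg h, if_neg h]

lemma rsR_Pz {h : ℝ} (hh : h ^ 2 ≤ 1) (θ : ℝ) : rs R (Pz h θ) = Pz (-h) θ := by
  apply Subtype.ext
  rw [rs_coe]
  have hh' : (-h) ^ 2 ≤ 1 := by rwa [neg_sq]
  ext i
  rw [R_apply]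
  fin_cases i
  · refine (if_neg (by decide)).trans ?_
    exact (Pz_0 hh θ).trans ((Pz_0 hh' θ).trans (by rw [neg_sq])).symm
  · refine (if_neg (by decide)).trans ?_
    exact (Pz_1 hh θ).trans ((Pz_1 hh' θ).trans (by rw [neg_sq])).symm
  · refine (if_pos rfl).trans ?_
    exact (congrArg Neg.neg (Pz_2 hh θ)).trans (Pz_2 hh' θ).symm

/-- the lower half sphere -/
def HN : Set (sphere (0 : E3) 1) := {x | (x : E3) 2 < 0}

lemma coord_meas : Measurable fun x : sphere (0 : E3) 1 => (x : E3) 2 := by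
  have h1 : Measurable fun x : E3 => x 2 := by fun_prop
  exact h1.comp measurable_subtype_coe

lemma HN_meas : MeasurableSet HN := measurableSet_lt coord_meas measurable_const

lemma rs_pre : rs R ⁻¹' HP = HN := by
  ext x
  show 0 < (rs R x : E3) 2 ↔ (x : E3) 2 < 0
  rw [rs_coe, R_apply, if_pos rfl]
  exact neg_pos

lemma lower {F : sphere (0 : E3) 1 → ℝ≥0∞} (hF : Measurable F) :
    ∫⁻ x in HN, F x ∂sigma = ∫⁻ h in Ioo (-1 : ℝ) 0, J F h := by
  have h1 := (rs_mp R).setLIntegral_comp_preimage HP_meas (hF.comp (rs_meas R))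
  rw [rs_pre] at h1
  have h2 : ∫⁻ x in HN, (F ∘ rs R) (rs R x) ∂sigma = ∫⁻ x in HN, F x ∂sigma := by
    apply lintegral_congr
    intro x
    show F (rs R (rs R x)) = F x
    rw [rsR_rsR]
  rw [← h2, h1, upper (hF.comp (rs_meas R))]
  have h3 : ∫⁻ h in Ioo (0 : ℝ) 1, J (F ∘ rs R) h = ∫⁻ h in Ioo (0 : ℝ) 1, J F (-h) := by
    apply setLIntegral_congr_fun measurableSet_Ioo
    intro h hh
    unfold J
    apply lintegral_congr
    intro θ
    show F (rs R (Pz h θ)) = _
    rw [rsR_Pz (by nlinarith [hh.1, hh.2])]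
  rw [h3]
  have h4 := (Measure.measurePreserving_neg (volume : Measure ℝ)).setLIntegral_comp_preimage
    (measurableSet_Ioo (a := (-1 : ℝ)) (b := 0)) (J_meas hF)
  rw [← h4]
  congr 1
  congr 1
  ext x
  simp only [mem_Ioo, mem_preimage]
  constructor
  · rintro ⟨h, h'⟩
    constructor <;> linarith
  · rintro ⟨h, h'⟩
    constructor <;> linarith

/-- the equator -/
lemma equator : sigma {x : sphere (0 : E3) 1 | (x : E3) 2 = 0} = 0 := by
  have hm : MeasurableSet {x : sphere (0 : E3) 1 | (x : E3) 2 = 0} :=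
    measurableSet_eq_fun coord_meas measurable_const
  unfold sigma
  rw [Measure.toSphere_apply' _ hm]
  have h0 : (volume : Measure E3) (Ioo (0 : ℝ) 1 •
      ((↑) '' {x : sphere (0 : E3) 1 | (x : E3) 2 = 0} : Set E3)) = 0 := by
    set p : E3 →ₗ[ℝ] ℝ := (EuclideanSpace.proj (2 : Fin 3) : E3 →L[ℝ] ℝ).toLinearMap with hp
    have hne : LinearMap.ker p ≠ ⊤ := by
      intro h
      have : EuclideanSpace.single (2 : Fin 3) (1 : ℝ) ∈ LinearMap.ker p := by
        rw [h]; trivial
      rw [LinearMap.mem_ker, hp] at this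
      simp at this
    apply measure_mono_null _ (Measure.addHaar_submodule volume (LinearMap.ker p) hne)
    rintro y ⟨t, ht, x, ⟨z, hz, rfl⟩, rfl⟩
    show t • (z : E3) ∈ LinearMap.ker p
    rw [LinearMap.mem_ker, map_smul]
    have : p (z : E3) = 0 := hz
    rw [this, smul_zero]
  rw [h0, mul_zero]

theorem cylZ : CylZ := by
  refine ⟨Pz_meas, ?_⟩
  ext A hA
  rw [Measure.map_apply Pz_meas hA]
  set F : sphere (0 : E3) 1 → ℝ≥0∞ := A.indicator 1 with hFd
  have hF : Measurable F := measurable_one.indicator hA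
  -- the left side
  have h1 : (((volume : Measure ℝ).restrict (Ioo (-1 : ℝ) 1)).prod
      ((volume : Measure ℝ).restrict (Ioo (-π) π))) ((fun p : ℝ × ℝ => Pz p.1 p.2) ⁻¹' A) =
      ∫⁻ h in Ioo (-1 : ℝ) 1, J F h := by
    rw [← lintegral_indicator_one (Pz_meas hA), lintegral_prod]
    · rfl
    · exact ((measurable_one.indicator hA).comp Pz_meas).aemeasurable
  rw [h1]
  -- the right side
  rw [← lintegral_indicator_one hA]
  change _ = ∫⁻ x, F x ∂sigma
  have h2 : ∫⁻ x, F x ∂sigma = ∫⁻ x in HP, F x ∂sigma + ∫⁻ x in HN, F x ∂sigma := by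
    rw [← lintegral_union HN_meas]
    · rw [← setLIntegral_univ]
      apply setLIntegral_congr
      refine Filter.EventuallyEq.symm ?_
      refine ae_eq_univ.2 ?_
      apply measure_mono_null _ equator
      intro x hx
      simp only [mem_compl_iff, mem_union, not_or] at hx
      have h3 : ¬ 0 < (x : E3) 2 := hx.1
      have h4 : ¬ (x : E3) 2 < 0 := hx.2
      exact le_antisymm (not_lt.1 h3) (not_lt.1 h4)
    · rw [Set.disjoint_left]
      intro x hx hx'
      have h3 : 0 < (x : E3) 2 := hx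
      have h4 : (x : E3) 2 < 0 := hx'
      exact absurd h3 (not_lt.2 h4.le)
  rw [h2, upper hF, lower hF, add_comm]
  rw [← lintegral_union measurableSet_Ioo]
  · apply setLIntegral_congr
    have h5 : Ioo (-1 : ℝ) 1 = Ioo (-1 : ℝ) 0 ∪ {0} ∪ Ioo (0 : ℝ) 1 := by
      ext x
      simp only [mem_Ioo, mem_union, mem_singleton_iff]
      constructor
      · rintro ⟨h, h'⟩
        rcases lt_trichotomy x 0 with h6 | h6 | h6
        · exact Or.inl (Or.inl ⟨h, h6⟩)
        · exact Or.inl (Or.inr h6)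
        · exact Or.inr ⟨h6, h'⟩
      · rintro ((⟨h, h'⟩ | h) | ⟨h, h'⟩)
        · constructor <;> linarith
        · subst h; norm_num
        · constructor <;> linarith
    rw [h5]
    apply Filter.EventuallyEq.union _ (Filter.EventuallyEq.refl _ _)
    have h6 : ({0} : Set ℝ) =ᵐ[volume] (∅ : Set ℝ) := ae_eq_empty.2 (measure_singleton 0)
    have h7 := (Filter.EventuallyEq.refl (ae (volume : Measure ℝ)) (Ioo (-1 : ℝ) 0)).union h6
    rwa [union_empty] at h7
  · rw [Set.disjoint_left]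
    intro x hx hx'
    exact absurd hx.2 (not_lt.2 hx'.1.le)

end Pool.Agent.TH698.MZ
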